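import Pool.Agent.Helper937.McsForce
import Pool.Agent.U19.CE.Main

/-!
# Compacta whose small subsets have Corson closures: the answer is consistently negative

(1) Some notion of forcing adds no subset of `ℕ` and forces that there is a family `S` of
sequences which is not sigma-discrete although all its initial segments, hence all its subfamilies
of cardinality at most the continuum, are sigma-discrete.
(2) Such a family gives the negative answer to the question.
(3) For the compact tree spaces `KT η S` the question is exactly the question whether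
sigma-discreteness of a family of sequences is determined by the subfamilies of cardinality at
most the continuum.
-/

set_option autoImplicit false

open Cardinal Set Topology

namespace Pool.Agent.Results.MP_1c9258_gt.ConsistentlyNo

open Pool.Agent.Helper937.Mcs (SD NonReflecting)
open Pool.Agent.U19.CE (KT)

/-- `X` embeds in a product of real lines so that all points have countable support
(for compact Hausdorff `X`: `X` is Corson compact). -/
def Corson (X : Type) [TopologicalSpace X] : Prop :=
  ∃ (Γ : Type) (f : X → (Γ → ℝ)), IsEmbedding f ∧ ∀ x, (Function.support (f x)).Countable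

/-- All closures of sets of cardinality at most the continuum are Corson compact. -/
def SmallClosuresCorson (X : Type) [TopologicalSpace X] : Prop :=
  ∀ A : Set X, #A ≤ 𝔠 → Corson (closure A)

/-- The negative answer to the question (the proposition of the frozen statement `S12848`). -/
def NegativeAnswer : Prop :=
  ∃ (X : Type) (_ : TopologicalSpace X) (_ : CompactSpace X) (_ : T2Space X),
    SmallClosuresCorson X ∧ ¬ Corson X

theorem corson_iff {X : Type} [TopologicalSpace X] [CompactSpace X] :
    Corson X ↔ ∃ (Γ : Type) (f : X → (Γ → ℝ)), Continuous f ∧ Function.Injective f ∧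
      ∀ x, (Function.support (f x)).Countable := by
  constructor
  · rintro ⟨Γ, f, h1, h2⟩
    exact ⟨Γ, f, h1.continuous, h1.injective, h2⟩
  · rintro ⟨Γ, f, h1, h2, h3⟩
    exact ⟨Γ, f, (h1.isClosedEmbedding h2).isEmbedding, h3⟩

theorem kt_iff {Θ β : Type} {η : Θ → ℕ → β} (hη : Function.Injective η) (S : Set Θ) :
    (Corson (KT η S) ↔ SD η S) ∧
      (SmallClosuresCorson (KT η S) ↔ ∀ B ⊆ S, #B ≤ 𝔠 → SD η B) := by
  constructor
  · rw [corson_iff]
    constructor
    · rintro ⟨T, f, h1, h2, h3⟩
      exact Pool.Agent.U19.CE.sd_of_corson hη f h1 h2 h3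
    · intro h
      have h0 : {x | ∃ hx : x ∈ S, Pool.Agent.U19.CE.br η S x hx ∈ (univ : Set (KT η S))} = S := by
        ext x; simp
      obtain ⟨f, h1, h2, h3, -⟩ := Pool.Agent.U19.CE.exists_embedding hη univ (h0.symm ▸ h)
      exact ⟨_, fun s => f ⟨s, trivial⟩, h1.comp (by fun_prop),
        fun s t hst => congrArg Subtype.val (h2 hst), fun s => (h3 _).countable⟩
  · constructor
    · intro h B hB hc
      refine Pool.Agent.U19.CE.sd_of_closures hη (fun A hA => ?_) hB hc
      haveI : CompactSpace (closure A) := isCompact_iff_compactSpace.1 isClosed_closure.isCompact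
      exact corson_iff.1 (h A hA)
    · intro h A hA
      haveI : CompactSpace (closure A) := isCompact_iff_compactSpace.1 isClosed_closure.isCompact
      obtain ⟨f, h1, h2, h3, -⟩ := Pool.Agent.U19.CE.exists_embedding hη (closure A)
        (h (Pool.Agent.U19.CE.brs η S A) (fun x hx => hx.1) (Pool.Agent.U19.CE.mk_brs_le hη hA))
      exact corson_iff.2 ⟨_, f, h1, h2, fun s => (h3 s).countable⟩

/-- **Main theorem.** -/
theorem result :
    (∃ (Θ : Type) (_ : LinearOrder Θ) (η : Θ → ℕ → Θ) (P : Type) (_ : Preorder P),
      Function.Injective η ∧ Nonempty P ∧ ∀ p : P, p ∈ NonReflecting P η) ∧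
    (∀ (Θ β : Type) [LinearOrder Θ] (η : Θ → ℕ → β), Function.Injective η →
      (∀ g : Set ℕ → Θ, ∃ γ, ∀ A, g A < γ) →
      (∃ S : Set Θ, (∀ γ, SD η (S ∩ Iio γ)) ∧ ¬ SD η S) → NegativeAnswer) ∧
    (∀ (Θ β : Type) (η : Θ → ℕ → β) (S : Set Θ), Function.Injective η →
      (Corson (KT η S) ↔ SD η S) ∧
      (SmallClosuresCorson (KT η S) ↔ ∀ B ⊆ S, #B ≤ 𝔠 → SD η B)) := by
  refine ⟨Pool.Agent.Helper937.Mcs.exists_forcing, ?_, fun Θ β η S hη => kt_iff hη S⟩
  intro Θ β _ η hη hb ⟨S, h1, h2⟩
  refine ⟨KT η S, inferInstance, inferInstance, inferInstance, ?_, ?_⟩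
  · exact (kt_iff hη S).2.2 (Pool.Agent.U19.CE.small_of_nonReflecting hb h1)
  · exact fun h => h2 ((kt_iff hη S).1.1 h)

end Pool.Agent.Results.MP_1c9258_gt.ConsistentlyNo
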